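import Mathlib
import Pool.Agent.H21R3.Explicit

set_option autoImplicit false

namespace Pool.Agent.Results.MP_1f2de8_an.SharpCoefficients

open Complex Metric Set Pool.Agent.H21R3

/-- **Solution of the coefficient problem for alpha-convex functions.** Let `0 < α < 1`. The
function `extremalFn α` belongs to `M(α)`. Let `c` be the sequence with `c 0 = 1` and
`m c_m = Σ_{k=1}^m (α k - (m - k)) b_k c_{m-k}`. For every `n ≥ 2` the largest value of `|a_n|` over
the class `M(α)` exists and equals `c (n - 1)`, and this number is the `n`-th Taylor coefficient of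
`extremalFn α`. -/
theorem result (α : ℝ) (hα0 : 0 < α) (hα1 : α < 1) :
    IsAlphaConvex α (extremalFn α) ∧
    ∃ c : ℕ → ℝ, c 0 = 1 ∧
      (∀ m : ℕ, 1 ≤ m → (m : ℝ) * c m =
        ∑ k ∈ Finset.Icc 1 m, (α * (k : ℝ) - ((m : ℝ) - (k : ℝ))) * bM α k * c (m - k)) ∧
      ∀ n : ℕ, 2 ≤ n →
        iteratedDeriv n (extremalFn α) 0 / (n.factorial : ℂ) = (c (n - 1) : ℂ) ∧
        IsGreatest {r : ℝ | ∃ f : ℂ → ℂ, IsAlphaConvex α f ∧
          r = ‖iteratedDeriv n f 0 / (n.factorial : ℂ)‖} (c (n - 1)) := by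
  obtain ⟨β, hβe⟩ : ∃ β : ℝ, β = 1 / α := ⟨_, rfl⟩
  have hα : α = 1 / β := by rw [hβe, one_div_one_div]
  have hβ : 1 < β := by rw [hβe, lt_div_iff₀ hα0]; linarith
  subst hα
  have hmem : IsAlphaConvex (1 / β) (extremalFn (1 / β)) :=
    (fal_mem hβ).congr (fun z hz => extremalFn_eq hβ hz)
  refine ⟨hmem, fun m => (cf m (hD β)).re, ?_, fun m hm => c_lin' hβ hm, ?_⟩
  · show (cf 0 (hD β)).re = 1
    rw [cf_zero_eq, hD_zero hβ]; simp
  intro n hn
  obtain ⟨m, rfl⟩ : ∃ m, n = m + 1 := ⟨n - 1, by omega⟩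
  have hm : 1 ≤ m := by omega
  have e : m + 1 - 1 = m := by omega
  have hcoef : cf (m + 1) (extremalFn (1 / β)) = ((cf m (hD β)).re : ℂ) := by
    rw [cf_congr (fun z hz => extremalFn_eq hβ hz), cf_fal hβ, ← cf_hD_real hβ]
  have hpos : 0 < (cf m (hD β)).re := c_pos hβ m
  have hnorm : ‖cf m (hD β)‖ = (cf m (hD β)).re := by
    conv_lhs => rw [cf_hD_real hβ]
    rw [Complex.norm_real, Real.norm_of_nonneg hpos.le]
  rw [e]
  refine ⟨hcoef, ⟨extremalFn (1 / β), hmem, ?_⟩, ?_⟩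
  · have h1 : ‖cf (m + 1) (extremalFn (1 / β))‖ = (cf m (hD β)).re := by
      rw [hcoef, Complex.norm_real, Real.norm_of_nonneg hpos.le]
    exact h1.symm
  · rintro r ⟨f, hf, rfl⟩
    have h1 := sharp_bound hβ hf hm
    rw [hnorm] at h1
    exact h1

end Pool.Agent.Results.MP_1f2de8_an.SharpCoefficients
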